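import Pool.Agent.Lib.MP_5f80dd_lc.Code
import Pool.Agent.Lib.MP_5f80dd_lc.NucC

set_option autoImplicit false

/-!
Bi-embeddability of nuclear simple separable C*-algebras is a complete analytic equivalence
relation: every analytic equivalence relation on a standard Borel space is Borel reducible to
bi-embeddability of separable C*-algebras which are at the same time simple, nuclear and AF.
In particular the same holds for bi-embeddability of separable AF algebras.
-/

namespace Pool.Agent.Results.MP_5f80dd_lc.SimpleNuclearAF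

open Pool.Agent.Lib.MP_5f80dd_lc

universe u v

/-- The space of codes for separable C*-algebras acting on `H`: sequences of bounded operators.
Each factor carries the weak operator topology, and the whole space the product topology. -/
abbrev Codes (H : Type u) [NormedAddCommGroup H] [InnerProductSpace ℂ H] : Type u :=
  ℕ → (H →WOT[ℂ] H)

/-- A map into the space of codes is Borel if it is measurable for the Borel sigma-algebra
coming from the weak operator topology. -/
def IsBorelMap {H : Type u} [NormedAddCommGroup H] [InnerProductSpace ℂ H] {X : Type v}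
    [MeasurableSpace X] (F : X → Codes H) : Prop :=
  @Measurable X (Codes H) _ (borel (Codes H)) F

/-- The C*-algebra generated by a subset of a C*-algebra: the norm closure of the generated
`*`-algebra. -/
noncomputable def Generated {M : Type u} [CStarAlgebra M] (S : Set M) :
    NonUnitalStarSubalgebra ℂ M :=
  (NonUnitalStarAlgebra.adjoin ℂ S).topologicalClosure

/-- The C*-algebra coded by `γ`: it is generated by the entries of `γ`. -/
noncomputable def CStar {H : Type u} [NormedAddCommGroup H] [InnerProductSpace ℂ H]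
    [CompleteSpace H] (γ : Codes H) : NonUnitalStarSubalgebra ℂ (H →L[ℂ] H) :=
  Generated (Set.range fun n => (γ n).toCLM)

/-- A concrete C*-algebra `A` (inside a C*-algebra `M`) is AF if it is the norm closure of the
union of an increasing sequence of finite dimensional `*`-subalgebras. -/
def IsAF {M : Type u} [CStarAlgebra M] (A : NonUnitalStarSubalgebra ℂ M) : Prop :=
  ∃ B : ℕ → NonUnitalStarSubalgebra ℂ M, Monotone B ∧
    (∀ n, FiniteDimensional ℂ (B n)) ∧ (A : Set M) = closure (⋃ n, (B n : Set M))

/-- An element of a `*`-ring is positive if it is a finite sum of elements of the form `s* s`.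
In a C*-algebra this is the usual notion of positivity. -/
def IsPos {R : Type u} [NonUnitalRing R] [StarRing R] (x : R) : Prop :=
  ∃ (n : ℕ) (s : Fin n → R), x = ∑ i, star (s i) * s i

/-- A linear map is completely positive if for every `k` the induced map on `k × k` matrices sends
positive elements to positive elements. -/
def IsCP {A : Type u} {B : Type v} [NonUnitalRing A] [StarRing A] [Module ℂ A]
    [NonUnitalRing B] [StarRing B] [Module ℂ B] (φ : A →ₗ[ℂ] B) : Prop :=
  ∀ (k : ℕ) (x : Matrix (Fin k) (Fin k) A), IsPos x → IsPos (x.map φ)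

/-- The C*-algebra of bounded operators on a Hilbert space. For `K = ℂ^n` this is the algebra of
`n × n` matrices. -/
abbrev Op (K : Type v) [NormedAddCommGroup K] [InnerProductSpace ℂ K] : Type v := K →L[ℂ] K

/-- The identity of the concrete C*-algebra `A` (inside a C*-algebra `M`) agrees up to `ε` on the
finite set `S` with a composition `A → N → A` of completely positive contractions. -/
def Approx {M : Type u} [CStarAlgebra M] (A : NonUnitalStarSubalgebra ℂ M) (N : Type v)
    [CStarAlgebra N] (S : Finset A) (ε : ℝ) : Prop :=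
  ∃ (φ : A →ₗ[ℂ] N) (ψ : N →ₗ[ℂ] A), IsCP φ ∧ IsCP ψ ∧
    (∀ a, ‖φ a‖ ≤ ‖a‖) ∧ (∀ c, ‖ψ c‖ ≤ ‖c‖) ∧ ∀ a ∈ S, ‖ψ (φ a) - a‖ < ε

/-- A concrete C*-algebra `A` (inside a C*-algebra `M`) is nuclear if its identity is a point-norm
limit of compositions of completely positive contractions through matrix algebras. -/
def IsNuclear {M : Type u} [CStarAlgebra M] (A : NonUnitalStarSubalgebra ℂ M) : Prop :=
  ∀ (S : Finset A) (ε : ℝ), 0 < ε → ∃ n : ℕ, Approx A (Op (EuclideanSpace ℂ (Fin n))) S ε

/-- `A` embeds into `B`: there is an injective `*`-homomorphism from `A` to `B`. -/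
def Embeds {M : Type u} [CStarAlgebra M] (A B : NonUnitalStarSubalgebra ℂ M) : Prop :=
  ∃ φ : A →⋆ₙₐ[ℂ] B, Function.Injective φ

/-- Bi-embeddability of the coded C*-algebras. -/
def BiEmbeddable {H : Type u} [NormedAddCommGroup H] [InnerProductSpace ℂ H]
    [CompleteSpace H] (γ γ' : Codes H) : Prop :=
  Embeds (CStar γ) (CStar γ') ∧ Embeds (CStar γ') (CStar γ)

/-- A relation on a standard Borel space is analytic if it is the projection of a Borel set along
Baire space. -/
def IsAnalyticRel {X : Type v} [MeasurableSpace X] (E : X → X → Prop) : Prop :=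
  ∃ S : Set ((X × X) × (ℕ → ℕ)), MeasurableSet S ∧ ∀ x y, E x y ↔ ∃ z, ((x, y), z) ∈ S

/-- The version for quasi-orders and embeddability. -/
theorem quasi (H : Type u) [NormedAddCommGroup H] [InnerProductSpace ℂ H] [CompleteSpace H]
    [TopologicalSpace.SeparableSpace H] (hH : ¬ FiniteDimensional ℂ H)
    (X : Type v) [MeasurableSpace X] [StandardBorelSpace X] (E : X → X → Prop)
    (hr : ∀ x, E x x) (ht : ∀ x y z, E x y → E y z → E x z) (hA : IsAnalyticRel E) :
    ∃ F : X → Codes H, IsBorelMap F ∧
      (∀ x, IsAF (CStar (F x)) ∧ IsNuclear (CStar (F x)) ∧ IsSimpleRing (CStar (F x))) ∧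
      ∀ x y, E x y ↔ Embeds (CStar (F x)) (CStar (F y)) := by
  obtain ⟨b⟩ := exists_basis_of (PT.Om DD) H hH
  obtain ⟨S, hS, hE⟩ := hA
  obtain ⟨ι, hιm, hιi⟩ := MeasurableSpace.measurable_injection_nat_bool_of_countablySeparated X
  obtain ⟨g, hg, hQ⟩ := exists_param hS hE hιm
  obtain ⟨s, hs⟩ := exists_surjective_nat (Finset Site × PT.Om DD × PT.Om DD)
  have hnt : Nontrivial H := by
    by_contra hcon
    rw [not_nontrivial_iff_subsingleton] at hcon
    exact hH inferInstance
  have hC : ∀ x, CStar (cmap b s g x) = PT.BB b (XX g x) := by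
    intro x
    show (NonUnitalStarAlgebra.adjoin ℂ (Set.range (PT.cseq b s (XX g x)))).topologicalClosure = _
    rw [PT.adjoin_cseq b s hs]
    rfl
  refine ⟨fun x => cmap b s g (ι x), ?_, ?_, ?_⟩
  · have h1 : @Measurable Cant (Codes H) _ (borel (Codes H)) (cmap b s g) := by
      let _ : MeasurableSpace (Codes H) := borel (Codes H)
      have _ : BorelSpace (Codes H) := ⟨rfl⟩
      exact (continuous_cmap b s g).measurable
    exact @Measurable.comp X Cant (Codes H) _ _ (borel (Codes H)) _ _ h1 hιm
  · intro x
    show IsAF (CStar (cmap b s g (ι x))) ∧ IsNuclear (CStar (cmap b s g (ι x))) ∧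
      IsSimpleRing (CStar (cmap b s g (ι x)))
    rw [hC]
    refine ⟨?_, fun T ε hε => ?_, ?_⟩
    · obtain ⟨B, h1, h2, h3⟩ := PT.exists_af_BB b (XX g (ι x))
      exact ⟨B, h1, h2, h3⟩
    · exact PT.nuclear_BB b (XX g (ι x)) T ε hε
    · exact PT.isSimpleRing_BB b (twins_XX (ι x))
  · intro x y
    rw [← QQ_iff hιi hr x y]
    show _ ↔ Embeds (CStar (cmap b s g (ι x))) (CStar (cmap b s g (ι y)))
    rw [hC, hC]
    constructor
    · intro h
      obtain ⟨α, hα⟩ := exists_RR hQ h
      exact forward b hα
    · rintro ⟨π, hπ⟩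
      obtain ⟨β, hβ⟩ := backward b π hπ
      exact of_RR hQ hg (fun a => Or.inl rfl) (QQ_trans hιi ht) hβ

/-- Every analytic equivalence relation on a standard Borel space is Borel reducible to the
bi-embeddability relation on codes of separable C*-algebras that are AF, nuclear and simple. -/
theorem result (H : Type u) [NormedAddCommGroup H] [InnerProductSpace ℂ H] [CompleteSpace H]
    [TopologicalSpace.SeparableSpace H] (hH : ¬ FiniteDimensional ℂ H)
    (X : Type v) [MeasurableSpace X] [StandardBorelSpace X] (E : X → X → Prop)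
    (hE : Equivalence E) (hA : IsAnalyticRel E) :
    ∃ F : X → Codes H, IsBorelMap F ∧
      (∀ x, IsAF (CStar (F x)) ∧ IsNuclear (CStar (F x)) ∧ IsSimpleRing (CStar (F x))) ∧
      ∀ x y, E x y ↔ BiEmbeddable (F x) (F y) := by
  obtain ⟨F, h1, h2, h3⟩ := quasi H hH X E hE.refl (fun _ _ _ => hE.trans) hA
  refine ⟨F, h1, h2, fun x y => ?_⟩
  constructor
  · intro h
    exact ⟨(h3 x y).1 h, (h3 y x).1 (hE.symm h)⟩
  · intro h
    exact (h3 x y).2 h.1

end Pool.Agent.Results.MP_5f80dd_lc.SimpleNuclearAF
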